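import Pool.Agent.H27D.Two

/-!
# Difference sets with a two-intersection set of the same size

Let `D` be a `(v, k, lam)` difference set in a finite group `G` (not necessarily abelian), and let
`X ⊆ G` be a set of `k` elements that is not a right translate `D g` of `D`. If the right translates of
`D` meet `X` in at most two different numbers of elements then `k ≤ 3 lam (lam - 1)` and
`v < 9 lam ^ 3`. In particular this holds if `X` is the image of `D` under an automorphism of `G` which
is not a multiplier, and the cross-correlation of `D` and `X` takes only two values.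
-/

set_option autoImplicit false

namespace Pool.Agent.Results.MP_706923_co.TwoIntersectionSets

/-- `D` is a difference set in the finite group `G`, with at least two elements: every element
`g ≠ 1` can be written as `g = d₁ * d₂⁻¹` with `d₁, d₂ ∈ D` in exactly `lam` ways. -/
structure IsDifferenceSet (G : Type) [Group G] [Fintype G] [DecidableEq G] (D : Finset G)
    (lam : ℕ) : Prop where
  two_le : 2 ≤ D.card
  rep : ∀ g : G, g ≠ 1 → ((D ×ˢ D).filter (fun p => p.1 * p.2⁻¹ = g)).card = lam

/-- the right translate `D g` -/
def translate {G : Type} [Group G] [DecidableEq G] (D : Finset G) (g : G) : Finset G :=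
  D.image (fun d => d * g)

theorem mem_translate {G : Type} [Group G] [DecidableEq G] (D : Finset G) (g x : G) :
    x ∈ translate D g ↔ x * g⁻¹ ∈ D := by
  unfold translate
  rw [Finset.mem_image]
  constructor
  · rintro ⟨d, hd, rfl⟩
    simpa using hd
  · intro h
    exact ⟨x * g⁻¹, h, by simp⟩

/-- Let `D` be a `(v, k, lam)` difference set in a finite group `G`, and let `X` be a set of `k`
elements of `G` which is not a right translate of `D`. If the numbers `|X ∩ D g|` (`g ∈ G`) take at
most two values, then `k ≤ 3 lam (lam - 1)` and `v < 9 lam ^ 3`. -/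
theorem result (lam : ℕ) (G : Type) [Group G] [Fintype G] [DecidableEq G] (D : Finset G)
    (hD : IsDifferenceSet G D lam) (X : Finset G) (hX : X.card = D.card)
    (hne : ∀ g : G, translate D g ≠ X) (a b : ℕ)
    (hab : ∀ g : G, (X ∩ translate D g).card = a ∨ (X ∩ translate D g).card = b) :
    D.card ≤ 3 * lam * (lam - 1) ∧ Fintype.card G < 9 * lam ^ 3 := by
  have hs : ∀ g : G, (translate D g).card = D.card := by
    intro g
    unfold translate
    exact Finset.card_image_of_injective _ (fun x y hxy => mul_right_cancel hxy)
  have hp : ∀ x y : G, x ≠ y →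
      (Finset.univ.filter (fun g => x ∈ translate D g ∧ y ∈ translate D g)).card = lam := by
    intro x y hxy
    have hg : x * y⁻¹ ≠ 1 := by
      intro h
      exact hxy (mul_inv_eq_one.1 h)
    rw [← hD.rep (x * y⁻¹) hg]
    apply Finset.card_nbij' (fun g => (x * g⁻¹, y * g⁻¹)) (fun p => p.1⁻¹ * x)
    · intro g hg'
      simp only [Finset.coe_filter, Finset.mem_univ, true_and, Set.mem_ofPred_eq,
        mem_translate] at hg'
      simp only [Finset.coe_filter, Set.mem_ofPred_eq, Finset.mem_product]
      refine ⟨hg', ?_⟩
      group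
    · rintro ⟨p, q⟩ hpq
      simp only [Finset.coe_filter, Set.mem_ofPred_eq, Finset.mem_product] at hpq
      simp only [Finset.coe_filter, Finset.mem_univ, true_and, Set.mem_ofPred_eq, mem_translate]
      obtain ⟨⟨hp1, hq1⟩, he⟩ := hpq
      constructor
      · have : x * (p⁻¹ * x)⁻¹ = p := by group
        rw [this]; exact hp1
      · have h2 : y * (p⁻¹ * x)⁻¹ = q := by
          have h3 : y⁻¹ = x⁻¹ * (p * q⁻¹) := by rw [he]; group
          have h4 : y = (p * q⁻¹)⁻¹ * x := by
            have := congrArg (fun t => t⁻¹) h3
            simpa [mul_inv_rev] using this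
          rw [h4]; group
        rw [h2]; exact hq1
    · intro g _
      simp
    · rintro ⟨p, q⟩ hpq
      simp only [Finset.coe_filter, Set.mem_ofPred_eq, Finset.mem_product] at hpq
      obtain ⟨_, he⟩ := hpq
      have h2 : y * (p⁻¹ * x)⁻¹ = q := by
        have h3 : y⁻¹ = x⁻¹ * (p * q⁻¹) := by rw [he]; group
        have h4 : y = (p * q⁻¹)⁻¹ * x := by
          have := congrArg (fun t => t⁻¹) h3
          simpa [mul_inv_rev] using this
        rw [h4]; group
      have h5 : x * (p⁻¹ * x)⁻¹ = p := by group
      simp only [h2, h5]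
  obtain ⟨hdes, hl⟩ := Pool.Agent.H27D.des_gen (S := translate D) hD.two_le Fintype.card_pos rfl
    hs hp
  have hX' : (X.card : ℤ) = (D.card : ℤ) := by exact_mod_cast hX
  have hl' : (1 : ℤ) ≤ (lam : ℤ) := by exact_mod_cast hl
  have hn : 0 < (D.card : ℤ) - lam := by
    by_contra hcon
    push Not at hcon
    have h1 := Pool.Agent.H27D.sum_dd hdes X hX'
    have h2 : ∑ g : G, Pool.Agent.H27D.dd (translate D) (lam : ℤ) X g ≤
        ∑ _g : G, ((D.card : ℤ) - lam - 1) :=
      Finset.sum_le_sum (fun g _ => Pool.Agent.H27D.dd_le hdes X hX' hne g)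
    rw [h1] at h2
    simp only [Finset.sum_const, Finset.card_univ, nsmul_eq_mul] at h2
    have h3 : (1 : ℤ) ≤ (Fintype.card G : ℤ) := by exact_mod_cast Fintype.card_pos
    nlinarith
  have key := Pool.Agent.H27D.two_values hdes hl' X hX' hne hn ((a : ℤ) - lam) ((b : ℤ) - lam)
    (by
      intro g
      unfold Pool.Agent.H27D.dd
      rcases hab g with h | h
      · left; rw [h]
      · right; rw [h])
  have htot := hdes.tot
  constructor
  · zify
    rw [Nat.cast_sub hl]
    exact_mod_cast key
  · have hk2 : (2 : ℤ) ≤ (D.card : ℤ) := by exact_mod_cast hD.two_le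
    have h1 : (D.card : ℤ) * ((D.card : ℤ) - 1) ≤
        (3 * lam * (lam - 1)) * (3 * lam * (lam - 1) - 1) := by nlinarith
    have h2 : (Fintype.card G : ℤ) * lam < 9 * (lam : ℤ) ^ 3 * lam := by
      rw [htot]
      nlinarith
    have h3 : (Fintype.card G : ℤ) < 9 * (lam : ℤ) ^ 3 :=
      lt_of_mul_lt_mul_right h2 (by linarith)
    exact_mod_cast h3

end Pool.Agent.Results.MP_706923_co.TwoIntersectionSets
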